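import Pool.Agent.Lib.MP_7de92b_lc.Final

/-!
# A Sigma^1_3 sentence whose omega-model reflection is ATR_0
-/

set_option autoImplicit false

open Pool.Agent.Lib.MP_7de92b_lc

/-- There is a `Σ^1_3` sentence `σ` of second-order arithmetic such that in every model of
`ACA_0` the omega-model reflection of `σ` is equivalent to `ATR_0`. -/
theorem Pool.Agent.Results.MP_7de92b_lc.Sigma13Reflection.result :
    ∃ σ : Fml 0 0, Sigma13 σ ∧
      ∀ (N : Type) [Zero N] [One N] [Add N] [Mul N] [LT N] (𝒮 : Set (Set N)), ACA0 𝒮 →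
        (Rfn σ 𝒮 ↔ ATR0 𝒮) :=
  ⟨sigma, sigma13, fun _ _ _ _ _ _ _ h => main_equiv h⟩
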